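import Mathlib
import Pool.Agent.H24.IrrDefs
import Pool.Agent.H24.IrrE

set_option autoImplicit false

namespace Pool.Agent.Results.MP_5484c7_co.Strong

open Pool.Agent.H24.IrrDefs

theorem result : ∀ (n : ℕ) (F : SimpleGraph (Fin n)), 3 ≤ n → F.Connected →
    ∀ N : ℕ, ∃ (m : ℕ) (G : SimpleGraph (Fin m)), N ≤ m ∧
      Function.Injective (fun v : Fin m => fDeg F G v) :=
  fun _ F hn hF N => Pool.Agent.H24.IrrE.unrooted_main F hn hF N

end Pool.Agent.Results.MP_5484c7_co.Strong
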